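import Pool.Agent.Helper6.LPB.St

/-!
# Project LPB, module LOW: the first moment
-/

set_option autoImplicit false

namespace Pool.Agent.Helper11.LPB

open Finset Filter
open Pool.Agent.Helper6.LP Pool.Agent.Helper6.LPB
open Pool.Agent.Helper98.LM (QQ)

private lemma ev_log (c d : ℝ) (hc : 0 < c) (n : ℕ) :
    ∀ᶠ x : ℝ in atTop, d * Real.log x ^ n ≤ c * x ^ (1 / 2 : ℝ) := by
  have h := isLittleO_log_rpow_rpow_atTop (n : ℝ) (by norm_num : (0 : ℝ) < 1 / 2)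
  have hd : 0 < c / (|d| + 1) := by positivity
  have h1 := h.bound hd
  filter_upwards [h1, eventually_ge_atTop (1 : ℝ)] with x hx hx1
  have hl : 0 ≤ Real.log x := Real.log_nonneg hx1
  rw [Real.rpow_natCast, Real.norm_of_nonneg (pow_nonneg hl n),
    Real.norm_of_nonneg (by positivity)] at hx
  have h2 : d * Real.log x ^ n ≤ (|d| + 1) * Real.log x ^ n :=
    mul_le_mul_of_nonneg_right (by linarith [le_abs_self d]) (pow_nonneg hl n)
  refine h2.trans ?_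
  have h3 := mul_le_mul_of_nonneg_left hx (by positivity : (0 : ℝ) ≤ |d| + 1)
  refine h3.trans (le_of_eq ?_)
  field_simp

private lemma key (κ δ : ℝ) (hδκ : δ ≤ κ / 2) (hκ : 0 < κ) (N w n y : ℕ) (hN1 : (1 : ℝ) ≤ N)
    (hw : (w : ℝ) < (N : ℝ) ^ δ) (hn : (N : ℝ) ^ (1 / 2 : ℝ) < n) (hyn : y < n)
    (hR : Rough κ n y) : ∀ l ∈ QQ 32 w, ¬ (l : ℤ) ∣ ff n y := by
  intro l hl hd
  unfold QQ at hl
  simp only [mem_filter, mem_Ioc] at hl
  have hlp : l.Prime := by tauto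
  have hlw : l ≤ w := by tauto
  have hq : (n : ℝ) ^ κ ≤ l := by
    apply hR l hlp
    unfold ff at hd
    have hp : Prime (l : ℤ) := Nat.prime_iff_prime_int.1 hlp
    rcases hp.dvd_or_dvd hd with h | h
    · left
      have h5 : (((n - y) + n * y : ℕ) : ℤ) = fa n y := by
        unfold fa
        push_cast [Nat.cast_sub hyn.le]
        ring
      rw [← h5] at h
      exact_mod_cast h
    · right
      have h5 : (((n - y) ^ 2 + n * y ^ 2 : ℕ) : ℤ) = fb n y := by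
        unfold fb
        push_cast [Nat.cast_sub hyn.le]
        ring
      rw [← h5] at h
      exact_mod_cast h
  have h1 : (N : ℝ) ^ δ ≤ (N : ℝ) ^ (κ / 2) := Real.rpow_le_rpow_of_exponent_le hN1 hδκ
  have h2 : ((N : ℝ) ^ (1 / 2 : ℝ)) ^ κ ≤ (n : ℝ) ^ κ :=
    Real.rpow_le_rpow (by positivity) hn.le hκ.le
  rw [← Real.rpow_mul (by linarith)] at h2
  have h3 : (1 / 2 : ℝ) * κ = κ / 2 := by ring
  rw [h3] at h2
  have h4 : (l : ℝ) ≤ w := by exact_mod_cast hlw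
  linarith

open Classical in
theorem hLOW (hO : StONU) (hA : StAVG) (hV : StVSM) : StLOW := by
  obtain ⟨B, hB, HO⟩ := hO
  obtain ⟨C, hC, HA⟩ := hA
  obtain ⟨Cv, hCv, HV⟩ := hV
  intro κ ε hκ hε
  have hC0 : 0 < C := by linarith
  have hCv0 : 0 < Cv := by linarith
  obtain ⟨δ, hδ⟩ : ∃ δ : ℝ, δ = min (κ / 2) (1 / (2 * (B : ℝ) + 2)) := ⟨_, rfl⟩
  have hB0 : (0 : ℝ) ≤ B := Nat.cast_nonneg _
  have hδ0 : 0 < δ := by rw [hδ]; exact lt_min (by positivity) (by positivity)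
  have hδκ : δ ≤ κ / 2 := by rw [hδ]; exact min_le_left _ _
  have hδB' : δ ≤ 1 / (2 * (B : ℝ) + 2) := by rw [hδ]; exact min_le_right _ _
  have hδ1 : δ ≤ 1 := hδB'.trans (by rw [div_le_one (by positivity)]; linarith)
  have hδB : δ * B ≤ 1 / 2 := by
    rw [le_div_iff₀ (by positivity)] at hδB'
    nlinarith
  obtain ⟨c, hc⟩ : ∃ c : ℝ, c = ε * δ ^ 2 / (40 * C) := ⟨_, rfl⟩
  have hc0 : 0 < c := by rw [hc]; positivity
  obtain ⟨I₀, HA⟩ := HA (5 * c / δ ^ 2) (by positivity)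
  have hcC : 2 * (C * (5 * c / δ ^ 2)) = ε / 4 := by
    rw [hc]
    field_simp
    ring
  obtain ⟨T, hT⟩ : ∃ T : ℝ, T = (I₀ : ℝ) + 4 + δ ^ 2 / c + 64 * Cv / ε + 1 := ⟨_, rfl⟩
  have t1 : 0 ≤ (I₀ : ℝ) := Nat.cast_nonneg _
  have t2 : 0 < δ ^ 2 / c := by positivity
  have t3 : 0 < 64 * Cv / ε := by positivity
  have ev1 := ev_log (ε / 4) (c + 7) (by positivity) 2
  have ev3 := Real.tendsto_log_atTop.eventually_ge_atTop (1 + 2 / δ * T)
  obtain ⟨x₀, hx₀⟩ := eventually_atTop.1 ((ev1.and ev3).and (eventually_ge_atTop (1 : ℝ)))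
  refine ⟨c, hc0, ⌈x₀⌉₊, fun N hN => ?_⟩
  obtain ⟨⟨e1, e3⟩, hN1⟩ := hx₀ (N : ℝ) (Nat.ceil_le.1 hN)
  obtain ⟨L, hLd⟩ : ∃ L : ℝ, L = Real.log N := ⟨_, rfl⟩
  rw [← hLd] at e1 e3
  have hN0 : (0 : ℝ) < N := by linarith
  have hT0 : 5 ≤ T := by rw [hT]; linarith
  have hL1 : 1 ≤ L := by
    have : 0 ≤ 2 / δ * T := by positivity
    linarith
  have hL0 : 0 < L := by linarith
  have hLL : L ≤ L ^ 2 := by nlinarith
  have hδL : 2 * T ≤ δ * L := by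
    have h := mul_le_mul_of_nonneg_left e3 hδ0.le
    have h' : δ * (1 + 2 / δ * T) = δ + 2 * T := by field_simp
    linarith
  have hlog2 : 1 / 2 < Real.log 2 := by have := Real.log_two_gt_d9; linarith
  have hlog2' : Real.log 2 < 1 := by have := Real.log_two_lt_d9; linarith
  obtain ⟨I, hId⟩ : ∃ I : ℕ, I = ⌊δ * L / Real.log 2⌋₊ := ⟨_, rfl⟩
  have hIup : (I : ℝ) * Real.log 2 ≤ δ * L := by
    have h := Nat.floor_le (a := δ * L / Real.log 2) (by positivity)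
    rw [← hId, le_div_iff₀ (by linarith)] at h
    exact h
  have hIlow : δ * L < (I : ℝ) + 1 := by
    have h := Nat.lt_floor_add_one (δ * L / Real.log 2)
    rw [← hId, div_lt_iff₀ (by linarith)] at h
    have h' : ((I : ℝ) + 1) * Real.log 2 ≤ ((I : ℝ) + 1) * 1 :=
      mul_le_mul_of_nonneg_left hlog2'.le (by positivity)
    linarith
  have hIT : T ≤ I := by linarith
  have hI2 : δ * L ≤ 2 * I := by linarith
  have hIu : (I : ℝ) ≤ 2 * L := by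
    have h5 : (I : ℝ) * (1 / 2) ≤ I * Real.log 2 :=
      mul_le_mul_of_nonneg_left hlog2.le (Nat.cast_nonneg _)
    have h4 : δ * L ≤ 1 * L := mul_le_mul_of_nonneg_right hδ1 hL0.le
    linarith
  have hI0 : I₀ ≤ I := by
    have : (I₀ : ℝ) ≤ I := by rw [hT] at hIT; linarith
    exact_mod_cast this
  have hI4 : 4 ≤ I := by
    have : (4 : ℝ) ≤ I := by rw [hT] at hIT; linarith
    exact_mod_cast this
  have h2I : (2 : ℝ) ^ I ≤ (N : ℝ) ^ δ := by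
    rw [← Real.log_le_log_iff (by positivity) (by positivity), Real.log_pow,
      Real.log_rpow hN0, ← hLd]
    exact hIup
  obtain ⟨w, hw⟩ : ∃ w : ℕ, w = 2 ^ I - 1 := ⟨_, rfl⟩
  have h16 : 16 ≤ 2 ^ I := by
    calc 16 = 2 ^ 4 := by norm_num
      _ ≤ 2 ^ I := Nat.pow_le_pow_right (by norm_num) hI4
  have hw3 : 3 ≤ w := by omega
  have hwlt : (w : ℝ) < (N : ℝ) ^ δ := by
    have : (w : ℝ) < ((2 ^ I : ℕ) : ℝ) := by exact_mod_cast (by omega : w < 2 ^ I)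
    push_cast at this
    linarith
  obtain ⟨s, hs⟩ : ∃ s : ℝ, s = (N : ℝ) ^ (1 / 2 : ℝ) := ⟨_, rfl⟩
  have hs0 : 0 < s := by rw [hs]; positivity
  have hss : s * s = N := by
    rw [hs, ← Real.rpow_add (by linarith)]
    norm_num
  have hwB : (w : ℝ) ^ B ≤ s := by
    calc (w : ℝ) ^ B ≤ ((N : ℝ) ^ δ) ^ B := pow_le_pow_left₀ (Nat.cast_nonneg _) hwlt.le B
      _ = (N : ℝ) ^ (δ * B) := by rw [← Real.rpow_natCast, ← Real.rpow_mul hN0.le]
      _ ≤ (N : ℝ) ^ (1 / 2 : ℝ) := Real.rpow_le_rpow_of_exponent_le hN1 hδB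
      _ = s := hs.symm
  rw [← hs] at e1
  -- log w
  have hlw : 32 * Cv / ε ≤ Real.log w := by
    have h1 : ((2 : ℝ) ^ (I - 1)) ≤ w := by
      have : 2 ^ (I - 1) ≤ w := by
        have h5 : 2 ^ I = 2 * 2 ^ (I - 1) := by
          rw [← pow_succ']
          congr 1
          omega
        omega
      exact_mod_cast this
    have h2 := Real.log_le_log (by positivity) h1
    rw [Real.log_pow, Nat.cast_sub (by omega)] at h2
    push_cast at h2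
    have h3 : 64 * Cv / ε ≤ (I : ℝ) - 1 := by rw [hT] at hIT; linarith
    have h4 : ((I : ℝ) - 1) * (1 / 2) ≤ ((I : ℝ) - 1) * Real.log 2 :=
      mul_le_mul_of_nonneg_left hlog2.le (by linarith)
    have h5 : 64 * Cv / ε = 2 * (32 * Cv / ε) := by ring
    linarith
  have hlw0 : 0 < Real.log w := lt_of_lt_of_le (by positivity) hlw
  have hVw : Cv / Real.log w ≤ ε / 32 := by
    rw [div_le_iff₀ hlw0]
    rw [div_le_iff₀ hε] at hlw
    linarith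
  -- K
  obtain ⟨K, hK⟩ : ∃ K : ℕ, K = ⌊c * L ^ 2⌋₊ + I := ⟨_, rfl⟩
  have hfl : ((⌊c * L ^ 2⌋₊ : ℕ) : ℝ) ≤ c * L ^ 2 := Nat.floor_le (by positivity)
  have hKr : (K : ℝ) ≤ c * L ^ 2 + I := by
    rw [hK]
    push_cast
    linarith
  have hK1 : (K : ℝ) ≤ 5 * c / δ ^ 2 * (I : ℝ) ^ 2 := by
    have h1 : (δ * L) ^ 2 ≤ (2 * (I : ℝ)) ^ 2 := pow_le_pow_left₀ (by positivity) hI2 2
    have h2 : c * L ^ 2 = c / δ ^ 2 * (δ * L) ^ 2 := by field_simp
    have h3 : c / δ ^ 2 * (δ * L) ^ 2 ≤ c / δ ^ 2 * (2 * (I : ℝ)) ^ 2 :=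
      mul_le_mul_of_nonneg_left h1 (by positivity)
    have h4 : δ ^ 2 / c ≤ I := by rw [hT] at hIT; linarith
    have h5 : 1 ≤ c / δ ^ 2 * I := by
      rw [div_le_iff₀ hc0] at h4
      rw [div_mul_eq_mul_div, le_div_iff₀ (by positivity)]
      linarith
    have h6 : (I : ℝ) ≤ c / δ ^ 2 * (I : ℝ) ^ 2 := by
      have := mul_le_mul_of_nonneg_right h5 (Nat.cast_nonneg I : (0 : ℝ) ≤ I)
      calc (I : ℝ) = 1 * I := by ring
        _ ≤ c / δ ^ 2 * I * I := this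
        _ = c / δ ^ 2 * (I : ℝ) ^ 2 := by ring
    have h7 : 5 * c / δ ^ 2 * (I : ℝ) ^ 2 =
        c / δ ^ 2 * (2 * (I : ℝ)) ^ 2 + c / δ ^ 2 * (I : ℝ) ^ 2 := by ring
    linarith
  have hK2 : 5 + (K : ℝ) ≤ (c + 7) * L ^ 2 := by nlinarith
  have hKs : (5 + (K : ℝ)) * s ≤ ε / 4 * N := by
    calc (5 + (K : ℝ)) * s ≤ (ε / 4 * s) * s := mul_le_mul_of_nonneg_right (hK2.trans e1) hs0.le
      _ = ε / 4 * N := by rw [mul_assoc, hss]
  have hAV := HA I K hI0 (by omega) hK1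
  rw [← hw] at hAV
  -- the counting
  have hO' : ∀ y : ℕ, 1 ≤ y →
      (((Icc 1 N).filter (fun m : ℕ => ∀ l ∈ QQ 32 w, ¬ (l : ℤ) ∣ ff m y)).card : ℝ) ≤
        2 * (N * VV 32 w 1 0 y) + s := by
    intro y hy
    have h := HO y w N (by omega) hy
    linarith
  have hsub : (Icc 1 N).filter (fun n : ℕ => ∃ y : ℕ, 1 ≤ y ∧ y < n ∧ (y : ℝ) ≤ c * Real.log n ^ 2 ∧ Rough κ n y) ⊆
      (Icc 1 ⌊s⌋₊ ∪ (Icc 1 4).biUnion (fun y : ℕ => (Icc 1 N).filter (fun m : ℕ => ∀ l ∈ QQ 32 w, ¬ (l : ℤ) ∣ ff m y))) ∪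
        (Icc 5 K).biUnion (fun y : ℕ => (Icc 1 N).filter (fun m : ℕ => ∀ l ∈ QQ 32 w, ¬ (l : ℤ) ∣ ff m y)) := by
    intro n hn
    rw [mem_filter, mem_Icc] at hn
    obtain ⟨⟨hn1, hnN⟩, y, hy1, hyn, hyL, hR⟩ := hn
    by_cases hcase : (n : ℝ) ≤ s
    · refine mem_union_left _ (mem_union_left _ ?_)
      rw [mem_Icc]
      exact ⟨hn1, Nat.le_floor hcase⟩
    · push Not at hcase
      have hk := key κ δ hδκ hκ N w n y hN1 hwlt (by rw [← hs]; exact hcase) hyn hR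
      have hlogn : Real.log n ≤ L := by
        rw [hLd]
        exact Real.log_le_log (by exact_mod_cast hn1) (by exact_mod_cast hnN)
      have hlogn0 : 0 ≤ Real.log n := Real.log_nonneg (by exact_mod_cast hn1)
      have hyK : y ≤ K := by
        have h1 : c * Real.log n ^ 2 ≤ c * L ^ 2 := by gcongr
        have h2 : y ≤ ⌊c * L ^ 2⌋₊ := Nat.le_floor (hyL.trans h1)
        omega
      by_cases hy4 : y ≤ 4
      · refine mem_union_left _ (mem_union_right _ ?_)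
        rw [mem_biUnion]
        refine ⟨y, mem_Icc.2 ⟨hy1, hy4⟩, ?_⟩
        rw [mem_filter, mem_Icc]
        exact ⟨⟨hn1, hnN⟩, hk⟩
      · refine mem_union_right _ ?_
        rw [mem_biUnion]
        refine ⟨y, mem_Icc.2 ⟨by omega, hyK⟩, ?_⟩
        rw [mem_filter, mem_Icc]
        exact ⟨⟨hn1, hnN⟩, hk⟩
  have hcard := (card_le_card hsub).trans ((card_union_le _ _).trans
    (Nat.add_le_add ((card_union_le _ _).trans (Nat.add_le_add_left card_biUnion_le _)) card_biUnion_le))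
  have hcardR : (((Icc 1 N).filter (fun n : ℕ => ∃ y : ℕ, 1 ≤ y ∧ y < n ∧ (y : ℝ) ≤ c * Real.log n ^ 2 ∧ Rough κ n y)).card : ℝ) ≤
      ((Icc 1 ⌊s⌋₊).card : ℝ) + ∑ y ∈ Icc (1 : ℕ) 4, (((Icc 1 N).filter (fun m : ℕ => ∀ l ∈ QQ 32 w, ¬ (l : ℤ) ∣ ff m y)).card : ℝ) +
        ∑ y ∈ Icc 5 K, (((Icc 1 N).filter (fun m : ℕ => ∀ l ∈ QQ 32 w, ¬ (l : ℤ) ∣ ff m y)).card : ℝ) := by
    exact_mod_cast hcard
  have s1 : ((Icc 1 ⌊s⌋₊).card : ℝ) ≤ s := by
    rw [Nat.card_Icc]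
    have : ⌊s⌋₊ + 1 - 1 = ⌊s⌋₊ := by omega
    rw [this]
    exact Nat.floor_le hs0.le
  have s2 : ∑ y ∈ Icc (1 : ℕ) 4, (((Icc 1 N).filter (fun m : ℕ => ∀ l ∈ QQ 32 w, ¬ (l : ℤ) ∣ ff m y)).card : ℝ) ≤
      4 * (2 * (N * (ε / 32)) + s) := by
    have h : ∀ y ∈ Icc (1 : ℕ) 4, (((Icc 1 N).filter (fun m : ℕ => ∀ l ∈ QQ 32 w, ¬ (l : ℤ) ∣ ff m y)).card : ℝ) ≤
        2 * (N * (ε / 32)) + s := by
      intro y hy
      rw [mem_Icc] at hy
      have h1 := hO' y hy.1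
      have h2 := (HV w y hw3 hy.1 hy.2).trans hVw
      have h3 := mul_le_mul_of_nonneg_left h2 hN0.le
      linarith
    have h' := sum_le_sum h
    rw [sum_const, Nat.card_Icc, nsmul_eq_mul] at h'
    norm_num at h' ⊢
    linarith
  have s3 : ∑ y ∈ Icc 5 K, (((Icc 1 N).filter (fun m : ℕ => ∀ l ∈ QQ 32 w, ¬ (l : ℤ) ∣ ff m y)).card : ℝ) ≤
      ε / 4 * N + K * s := by
    have h : ∀ y ∈ Icc 5 K, (((Icc 1 N).filter (fun m : ℕ => ∀ l ∈ QQ 32 w, ¬ (l : ℤ) ∣ ff m y)).card : ℝ) ≤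
        2 * (N * VV 32 w 1 0 y) + s := by
      intro y hy
      rw [mem_Icc] at hy
      exact hO' y (by omega)
    have h' := sum_le_sum h
    rw [sum_add_distrib, ← mul_sum, ← mul_sum, sum_const, Nat.card_Icc, nsmul_eq_mul] at h'
    have h1 := mul_le_mul_of_nonneg_left hAV hN0.le
    have h2 : (((K + 1 - 5 : ℕ) : ℝ)) ≤ K := by exact_mod_cast (by omega : K + 1 - 5 ≤ K)
    have h3 := mul_le_mul_of_nonneg_right h2 hs0.le
    have h4 : 2 * ((N : ℝ) * (C * (5 * c / δ ^ 2))) = ε / 4 * N := by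
      rw [← hcC]
      ring
    linarith
  have hfin : (5 + (K : ℝ)) * s = 5 * s + K * s := by ring
  have : 4 * (2 * ((N : ℝ) * (ε / 32)) + s) = ε / 4 * N + 4 * s := by ring
  have hεN : 0 ≤ ε * N := by positivity
  linarith

end Pool.Agent.Helper11.LPB
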